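import Mathlib

/-!
Project HR2 (MP_16b0ee): integrals of step functions `y ↦ g ⌊m y⌋₊`, and integrability of the
beta type densities.
-/

set_option autoImplicit false

open MeasureTheory Set Filter Topology

namespace Pool.Agent.Helper3.HR2

theorem floor_cell {m : ℕ} (hm : 1 ≤ m) (j : ℕ) {y : ℝ}
    (hy : y ∈ Ico ((j : ℝ) / m) (((j : ℝ) + 1) / m)) : ⌊(m : ℝ) * y⌋₊ = j := by
  have h0 : (0 : ℝ) < m := by exact_mod_cast hm
  obtain ⟨h1, h2⟩ := hy
  rw [div_le_iff₀ h0] at h1
  rw [lt_div_iff₀ h0] at h2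
  have h3 : (0 : ℝ) ≤ (m : ℝ) * y := le_trans (Nat.cast_nonneg j) (by linarith)
  rw [Nat.floor_eq_iff h3]
  constructor <;> linarith

theorem cells_disjoint {m : ℕ} (hm : 1 ≤ m) :
    Pairwise (Function.onFun Disjoint fun j : ℕ => Ico ((j : ℝ) / m) (((j : ℝ) + 1) / m)) := by
  intro i j hij
  rw [Function.onFun, Set.disjoint_left]
  intro y hi hj
  exact hij ((floor_cell hm i hi).symm.trans (floor_cell hm j hj))

theorem mem_cell {m : ℕ} (hm : 1 ≤ m) {y : ℝ} (hy : 0 ≤ y) :
    y ∈ Ico ((⌊(m : ℝ) * y⌋₊ : ℝ) / m) (((⌊(m : ℝ) * y⌋₊ : ℝ) + 1) / m) := by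
  have h0 : (0 : ℝ) < m := by exact_mod_cast hm
  constructor
  · rw [div_le_iff₀ h0]
    have := Nat.floor_le (show (0 : ℝ) ≤ (m : ℝ) * y by positivity)
    linarith
  · rw [lt_div_iff₀ h0]
    have := Nat.lt_floor_add_one ((m : ℝ) * y)
    linarith

theorem iUnion_cells {m : ℕ} (hm : 1 ≤ m) :
    (⋃ j : ℕ, Ico ((j : ℝ) / m) (((j : ℝ) + 1) / m)) = Ici (0 : ℝ) := by
  ext y
  simp only [mem_iUnion, mem_Ici]
  constructor
  · rintro ⟨j, hj⟩
    exact le_trans (by positivity) hj.1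
  · intro hy
    exact ⟨_, mem_cell hm hy⟩

variable {E : Type*} [NormedAddCommGroup E] [NormedSpace ℝ E] [CompleteSpace E]

theorem cell_integral {m : ℕ} (hm : 1 ≤ m) (g : ℕ → E) (j : ℕ) :
    ∫ y in Ico ((j : ℝ) / m) (((j : ℝ) + 1) / m), g ⌊(m : ℝ) * y⌋₊ = (1 / (m : ℝ)) • g j := by
  have h0 : (0 : ℝ) < m := by exact_mod_cast hm
  rw [setIntegral_congr_fun measurableSet_Ico (g := fun _ => g j)
    (fun y hy => by simp only [floor_cell hm j hy])]
  rw [setIntegral_const, Real.volume_real_Ico_of_le (by gcongr; linarith)]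
  congr 1
  ring

theorem hasSum_step {m : ℕ} (hm : 1 ≤ m) {g : ℕ → E}
    (hg : IntegrableOn (fun y : ℝ => g ⌊(m : ℝ) * y⌋₊) (Ioi 0)) :
    HasSum (fun j => (1 / (m : ℝ)) • g j) (∫ y in Ioi (0 : ℝ), g ⌊(m : ℝ) * y⌋₊) := by
  have h := hasSum_integral_iUnion (μ := volume) (f := fun y : ℝ => g ⌊(m : ℝ) * y⌋₊)
    (s := fun j : ℕ => Ico ((j : ℝ) / m) (((j : ℝ) + 1) / m)) (fun j => measurableSet_Ico)
    (cells_disjoint hm) (by
      rw [iUnion_cells hm]
      exact (integrableOn_Ici_iff_integrableOn_Ioi (μ := volume)).mpr hg)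
  rw [iUnion_cells hm, integral_Ici_eq_integral_Ioi] at h
  simpa only [cell_integral hm] using h

theorem sum_step {m : ℕ} (hm : 1 ≤ m) (g : ℕ → E) :
    ∫ x in Ioo (0 : ℝ) 1, g ⌊(m : ℝ) * x⌋₊ = (1 / (m : ℝ)) • ∑ i ∈ Finset.range m, g i := by
  have h0 : (0 : ℝ) < m := by exact_mod_cast hm
  rw [← integral_Ico_eq_integral_Ioo]
  have hU : Ico (0 : ℝ) 1 = ⋃ i ∈ Finset.range m, Ico ((i : ℝ) / m) (((i : ℝ) + 1) / m) := by
    ext x
    simp only [mem_iUnion, Finset.mem_range, exists_prop]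
    constructor
    · rintro ⟨h1, h2⟩
      refine ⟨⌊(m : ℝ) * x⌋₊, ?_, mem_cell hm h1⟩
      rw [Nat.floor_lt (by positivity)]
      nlinarith
    · rintro ⟨i, hi, hx⟩
      refine ⟨le_trans (by positivity) hx.1, lt_of_lt_of_le hx.2 ?_⟩
      rw [div_le_one h0]
      exact_mod_cast hi
  rw [hU, integral_biUnion_finset _ (fun i _ => measurableSet_Ico)
    (fun i _ j _ hij => cells_disjoint hm hij)]
  · rw [Finset.smul_sum]
    exact Finset.sum_congr rfl fun i _ => cell_integral hm g i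
  · intro i _
    refine (integrableOn_const (C := g i) (by
      rw [Real.volume_Ico]; exact ENNReal.ofReal_ne_top)).congr_fun ?_ measurableSet_Ico
    intro y hy
    simp only [floor_cell hm i hy]

/-- lower bound for a double integral of a nonnegative step function -/
theorem sum_le_double {m : ℕ} (hm : 1 ≤ m) (f : ℕ → ℕ → ℝ) (hf : ∀ i < m, ∀ j, 0 ≤ f i j)
    (hint : ∀ i < m, IntegrableOn (fun y : ℝ => f i ⌊(m : ℝ) * y⌋₊) (Ioi 0)) (J : ℕ) :
    1 / (m : ℝ) ^ 2 * ∑ j ∈ Finset.range J, ∑ i ∈ Finset.range m, f i j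
      ≤ ∫ x in Ioo (0 : ℝ) 1, ∫ y in Ioi (0 : ℝ), f ⌊(m : ℝ) * x⌋₊ ⌊(m : ℝ) * y⌋₊ := by
  have h0 : (0 : ℝ) < m := by exact_mod_cast hm
  have h1 := sum_step hm (fun i => ∫ y in Ioi (0 : ℝ), f i ⌊(m : ℝ) * y⌋₊)
  rw [h1, Finset.sum_comm, smul_eq_mul, Finset.mul_sum, Finset.mul_sum]
  refine Finset.sum_le_sum fun i hi => ?_
  have hi' := Finset.mem_range.mp hi
  have h2 := hasSum_step hm (hint i hi')
  have h3 := sum_le_hasSum (Finset.range J) (fun j _ => by
    rw [smul_eq_mul]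
    exact mul_nonneg (by positivity) (hf i hi' j)) h2
  simp only [smul_eq_mul] at h3
  rw [← Finset.mul_sum] at h3
  calc 1 / (m : ℝ) ^ 2 * ∑ j ∈ Finset.range J, f i j
      = 1 / (m : ℝ) * (1 / (m : ℝ) * ∑ j ∈ Finset.range J, f i j) := by
        field_simp
    _ ≤ _ := by gcongr

/-- step functions are measurable -/
theorem measurable_step {F : Type*} [MeasurableSpace F] (m : ℕ) (g : ℕ → F) :
    Measurable (fun y : ℝ => g ⌊(m : ℝ) * y⌋₊) :=
  (measurable_of_countable g).comp (Nat.measurable_floor.comp (measurable_id.const_mul _))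

theorem measurable_step2 {F : Type*} [MeasurableSpace F] (m : ℕ) (g : ℕ → ℕ → F) :
    Measurable (fun z : ℝ × ℝ => g ⌊(m : ℝ) * z.1⌋₊ ⌊(m : ℝ) * z.2⌋₊) := by
  have h : Measurable (fun q : ℕ × ℕ => g q.1 q.2) := measurable_of_countable _
  exact h.comp ((Nat.measurable_floor.comp (measurable_fst.const_mul _)).prodMk
    (Nat.measurable_floor.comp (measurable_snd.const_mul _)))

/-- the beta density is integrable -/
theorem integrable_beta {p q : ℝ} (hp : -1 < p) (hq : -1 < q) :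
    IntegrableOn (fun x : ℝ => (1 - x) ^ p * x ^ q) (Ioo 0 1) := by
  have h := Complex.betaIntegral_convergent (u := ((q + 1 : ℝ) : ℂ)) (v := ((p + 1 : ℝ) : ℂ))
    (by simp; linarith) (by simp; linarith)
  have h1 := h.norm
  rw [intervalIntegrable_iff_integrableOn_Ioo_of_le zero_le_one] at h1
  refine h1.congr_fun ?_ measurableSet_Ioo
  intro x hx
  have hx1 : 0 < 1 - x := by linarith [hx.2]
  simp only [norm_mul]
  rw [show (1 - (x : ℂ)) = ((1 - x : ℝ) : ℂ) by push_cast; ring,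
    Complex.norm_cpow_eq_rpow_re_of_pos hx.1, Complex.norm_cpow_eq_rpow_re_of_pos hx1]
  simp only [Complex.sub_re, Complex.ofReal_re, Complex.one_re, add_sub_cancel_right]
  ring

/-- the dominating function in the variable `x` -/
theorem integrable_domx {p q t : ℝ} (hp : -1 < p) (ht : t < 1) (hq : -1 < q - t) :
    IntegrableOn (fun x : ℝ => ((1 - x) ^ p + 1) * (x ^ q + 1) * x ^ (-t)) (Ioo 0 1) := by
  have h1 := integrable_beta hp hq
  have h2 := integrable_beta (q := -t) hp (by linarith)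
  have h3 := integrable_beta (p := 0) (by norm_num) hq
  have h4 := integrable_beta (p := 0) (q := -t) (by norm_num) (by linarith)
  refine (((h1.add h2).add h3).add h4).congr_fun ?_ measurableSet_Ioo
  intro x hx
  simp only [Pi.add_apply, Real.rpow_zero, one_mul]
  rw [Real.rpow_sub hx.1, Real.rpow_neg hx.1.le]
  field_simp
  ring

theorem integrable_tail {c : ℝ} (hc : 0 < c) :
    IntegrableOn (fun y : ℝ => (1 + y) ^ (-c - 1)) (Ioi 0) := by
  have h := integrableOn_add_rpow_Ioi_of_lt (a := -c - 1) (m := 1) (c := 0) (by linarith)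
    (by norm_num)
  simpa only [add_comm] using h

theorem integral_tail {c : ℝ} (hc : 0 < c) :
    ∫ y in Ioi (0 : ℝ), (1 + y) ^ (-c - 1) = 1 / c := by
  have h := integral_Ioi_of_hasDerivAt_of_tendsto (a := 0) (m := 0)
    (f := fun y : ℝ => -(1 + y) ^ (-c) / c) (f' := fun y : ℝ => (1 + y) ^ (-c - 1)) ?_ ?_
    (integrable_tail hc) ?_
  · rw [h]
    simp
    rw [neg_div, neg_neg, one_div]
  · refine ContinuousAt.continuousWithinAt ?_
    refine ContinuousAt.div_const (ContinuousAt.neg ?_) _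
    exact ContinuousAt.rpow_const (by fun_prop) (Or.inl (by norm_num))
  · intro y hy
    have hy' : (0 : ℝ) < 1 + y := by have := mem_Ioi.mp hy; linarith
    have h1 : HasDerivAt (fun y : ℝ => (1 + y) ^ (-c)) (-c * (1 + y) ^ (-c - 1)) y := by
      have h2 : HasDerivAt (fun y : ℝ => 1 + y) 1 y := by
        simpa using (hasDerivAt_id y).const_add 1
      have h3 := h2.rpow_const (p := -c) (Or.inl hy'.ne')
      rw [show -c * (1 + y) ^ (-c - 1) = 1 * -c * (1 + y) ^ (-c - 1) by ring]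
      exact h3
    have h4 := (h1.neg).div_const c
    have h5 : -(-c * (1 + y) ^ (-c - 1)) / c = (1 + y) ^ (-c - 1) := by
      rw [neg_mul, neg_neg, mul_div_cancel_left₀ _ hc.ne']
    rw [h5] at h4
    exact h4
  · have h1 : Tendsto (fun y : ℝ => (1 + y) ^ (-c)) atTop (𝓝 0) :=
      (tendsto_rpow_neg_atTop hc).comp (tendsto_atTop_add_const_left _ _ tendsto_id)
    have h2 := (h1.neg).div_const c
    simpa using h2

/-- the dominating function in the variable `y` -/
theorem integrable_domy {b t : ℝ} (hb : 0 < b) (ht : 0 < t) (ht1 : t ≤ 1) :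
    IntegrableOn (fun y : ℝ => (1 + y) ^ (-b - 2) * y ^ (t - 1)) (Ioi 0) := by
  rw [← Ioc_union_Ioi_eq_Ioi (zero_le_one (α := ℝ))]
  refine IntegrableOn.union ?_ ?_
  · have h : IntegrableOn (fun y : ℝ => y ^ (t - 1)) (Ioc 0 1) := by
      have := intervalIntegral.intervalIntegrable_rpow' (a := 0) (b := 1) (r := t - 1)
        (by linarith)
      rwa [intervalIntegrable_iff_integrableOn_Ioc_of_le zero_le_one] at this
    refine Integrable.mono' h ?_ ?_
    · refine ContinuousOn.aestronglyMeasurable ?_ measurableSet_Ioc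
      intro y hy
      have hy0 := hy.1
      refine ContinuousAt.continuousWithinAt ?_
      refine ContinuousAt.mul ?_ ?_
      · exact ContinuousAt.rpow_const (by fun_prop) (Or.inl (by linarith))
      · exact ContinuousAt.rpow_const (by fun_prop) (Or.inl hy0.ne')
    · filter_upwards [ae_restrict_mem measurableSet_Ioc] with y hy
      have hy0 := hy.1
      rw [Real.norm_of_nonneg (by positivity)]
      have h1 : (1 + y) ^ (-b - 2) ≤ 1 :=
        Real.rpow_le_one_of_one_le_of_nonpos (by linarith) (by linarith)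
      have h2 : 0 ≤ y ^ (t - 1) := by positivity
      nlinarith
  · have h : IntegrableOn (fun y : ℝ => (1 + y) ^ (-b - 1)) (Ioi 1) :=
      (integrable_tail hb).mono_set (Ioi_subset_Ioi zero_le_one)
    refine Integrable.mono' h ?_ ?_
    · refine ContinuousOn.aestronglyMeasurable ?_ measurableSet_Ioi
      intro y hy
      have hy0 : (0 : ℝ) < y := lt_trans one_pos hy
      refine ContinuousAt.continuousWithinAt ?_
      refine ContinuousAt.mul ?_ ?_
      · exact ContinuousAt.rpow_const (by fun_prop) (Or.inl (by linarith))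
      · exact ContinuousAt.rpow_const (by fun_prop) (Or.inl hy0.ne')
    · filter_upwards [ae_restrict_mem measurableSet_Ioi] with y hy
      have hy1 : (1 : ℝ) < y := hy
      have hy0 : (0 : ℝ) < y := by linarith
      rw [Real.norm_of_nonneg (by positivity)]
      have h1 : y ^ (t - 1) ≤ 1 :=
        Real.rpow_le_one_of_one_le_of_nonpos hy1.le (by linarith)
      have h2 : (1 + y) ^ (-b - 2) ≤ (1 + y) ^ (-b - 1) :=
        Real.rpow_le_rpow_of_exponent_le (by linarith) (by linarith)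
      have h3 : 0 ≤ (1 + y) ^ (-b - 2) := by positivity
      nlinarith

/-- splitting of the singularity -/
theorem inv_add_le {x y t : ℝ} (hx : 0 < x) (hy : 0 < y) (ht : 0 ≤ t) (ht1 : t ≤ 1) :
    1 / (x + y) ≤ x ^ (-t) * y ^ (t - 1) := by
  have h := Real.geom_mean_le_arith_mean2_weighted (w₁ := t) (w₂ := 1 - t) (p₁ := x) (p₂ := y)
    ht (by linarith) hx.le hy.le (by ring)
  have h1 : x ^ t * y ^ (1 - t) ≤ x + y := by nlinarith
  rw [div_le_iff₀ (by linarith)]
  have h2 : x ^ (-t) * y ^ (t - 1) * (x ^ t * y ^ (1 - t)) = 1 := by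
    rw [show x ^ (-t) * y ^ (t - 1) * (x ^ t * y ^ (1 - t))
      = (x ^ (-t) * x ^ t) * (y ^ (t - 1) * y ^ (1 - t)) by ring, ← Real.rpow_add hx,
      ← Real.rpow_add hy]
    simp
  calc (1 : ℝ) = x ^ (-t) * y ^ (t - 1) * (x ^ t * y ^ (1 - t)) := h2.symm
    _ ≤ x ^ (-t) * y ^ (t - 1) * (x + y) := by gcongr

end Pool.Agent.Helper3.HR2
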